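import Pool.Agent.Helper60.FF.DefsB
import Pool.Agent.Helper50.BSC.EFIN
import Pool.Agent.Helper95.BSC.LIM

/-!
# FF: module PWR
-/

set_option autoImplicit false

namespace Pool.Agent.Helper60.FF

open Pool.Agent.Helper14.BSC

theorem pwr_bound (p : ℕ) [Fact p.Prime] (E : IntermediateField ℚ_[p] ℂ_[p]) (e : ℕ) (he : 0 < e)
    (hE : ∀ w ∈ E, w ≠ 0 → ∃ j : ℤ, ‖w‖ ^ e = (p : ℝ) ^ j) :
    ∃ s : ℝ, 0 ≤ s ∧ s < 1 ∧ 1 / (p : ℝ) ≤ s ∧ ∀ w ∈ E, ‖w‖ < 1 → ‖w‖ ≤ s := by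
  have hp1 : (1 : ℝ) < p := by exact_mod_cast (Fact.out : p.Prime).one_lt
  have hp0 : (0 : ℝ) < p := by linarith
  refine ⟨(1 / (p : ℝ)) ^ ((1 : ℝ) / e), by positivity, ?_, ?_, ?_⟩
  · refine Real.rpow_lt_one (by positivity) ?_ (by positivity)
    rw [div_lt_one hp0]
    exact hp1
  · have h1 : (1 : ℝ) / e ≤ 1 := by
      rw [div_le_one (by exact_mod_cast he)]
      exact_mod_cast he
    have h2 := Real.rpow_le_rpow_of_exponent_ge (x := 1 / (p : ℝ)) (by positivity)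
      (by rw [div_le_one hp0]; exact hp1.le) h1
    simpa using h2
  · intro w hw hw1
    rcases eq_or_ne w 0 with rfl | hw0
    · rw [norm_zero]
      positivity
    obtain ⟨j, hj⟩ := hE w hw hw0
    have h1 : (p : ℝ) ^ j < 1 := by
      rw [← hj]
      exact pow_lt_one₀ (norm_nonneg _) hw1 he.ne'
    have h2 : j ≤ -1 := by
      by_contra hc
      have h3 : (1 : ℝ) ≤ (p : ℝ) ^ j := one_le_zpow₀ hp1.le (by omega)
      linarith
    have h4 : ‖w‖ ^ e ≤ 1 / p := by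
      rw [hj, one_div, ← zpow_neg_one]
      exact zpow_le_zpow_right₀ hp1.le h2
    have h5 : ‖w‖ = (‖w‖ ^ e) ^ ((1 : ℝ) / e) := by
      rw [← Real.rpow_natCast, ← Real.rpow_mul (norm_nonneg _)]
      rw [mul_one_div_cancel (by exact_mod_cast he.ne'), Real.rpow_one]
    rw [h5]
    exact Real.rpow_le_rpow (by positivity) h4 (by positivity)

theorem pwr_pow {p : ℕ} [Fact p.Prime] {w : ℂ_[p]} (hw : ‖w‖ = 1) {s : ℝ} (hs : 0 ≤ s)
    (h : ‖w - 1‖ ≤ s) (n : ℕ) : ‖w ^ n - 1‖ ≤ s := by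
  induction n with
  | zero => simpa using hs
  | succ n ih =>
    have e : w ^ (n + 1) - 1 = w ^ n * (w - 1) + (w ^ n - 1) := by ring
    rw [e]
    refine (IsUltrametricDist.norm_add_le_max _ _).trans (max_le ?_ ih)
    rw [norm_mul, norm_pow, hw, one_pow, one_mul]
    exact h

theorem st_PWR : ST_PWR := by
  intro p _ E hE
  have hp1 : 1 < p := (Fact.out : p.Prime).one_lt
  constructor
  · intro x hx hx0 h
    refine st_LIM st_EFIN p E hE x hx0 fun n hn δ hδ => ?_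
    obtain ⟨y, hy, hxy⟩ := h n hn
    exact ⟨y, hy, by rw [← hxy, sub_self, norm_zero]; exact hδ⟩
  · intro δ hδ
    obtain ⟨e, N, he, hN, hEN⟩ := st_EFIN p E hE
    obtain ⟨s, hs0, hs1, hsp, hsu⟩ := pwr_bound p E e he fun w hw hw0 => (hEN w hw hw0).1
    have ht : Filter.Tendsto (fun m : ℕ => s ^ (m + 1)) Filter.atTop (nhds 0) :=
      (tendsto_pow_atTop_nhds_zero_of_lt_one hs0 hs1).comp (Filter.tendsto_add_atTop_nat 1)
    obtain ⟨m, hm⟩ := (ht.eventually (gt_mem_nhds hδ)).exists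
    refine ⟨N * p ^ m, fun r hr x hx hx1 => ?_⟩
    have hx0 : x ≠ 0 := by
      rintro rfl
      rw [norm_zero] at hx1
      exact zero_ne_one hx1
    have h4 := (hEN x hx hx0).2 hx1
    have h5 : ‖x ^ N - 1‖ ≤ s := hsu _ (E.sub_mem (pow_mem hx N) E.one_mem) h4
    have h6 := lim_iter p s hsp hs0 hs1 (x ^ N - 1) h5 m
    rw [add_sub_cancel, ← pow_mul] at h6
    obtain ⟨t, ht2⟩ : N * p ^ m ∣ r.factorial := Nat.dvd_factorial (by positivity) hr
    rw [ht2, pow_mul]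
    refine lt_of_le_of_lt (pwr_pow ?_ (by positivity) h6 t) hm
    rw [norm_pow, hx1, one_pow]

end Pool.Agent.Helper60.FF
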