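import Pool.Agent.Helper24.FF.Stmts

/-! Part F of MP_866009_co: statement RCH (part of a ring). -/

set_option autoImplicit false

namespace Pool.Agent.Helper24.FF

open Pool.Agent.Helper64.CT Pool.Agent.Helper64.DT Pool.Agent.Helper64.FL
open Pool.Agent.Helper64.HG (Ovl Model Circ IC HellyCircle ChordModel)

theorem rch_ipt {V : Type} {G : SimpleGraph V} {v : V} {M : List V} (hM : IPt G M)
    (h1 : ∀ x ∈ M, x ≠ v) (h2 : ∀ x ∈ M, (G.Adj v x ↔ M.head? = some x)) : IPt G (v :: M) := by
  refine ⟨fun x hx => (h1 x hx).symm, ?_, ?_, hM⟩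
  · intro b hb
    have hb' : M.head? = some b := hb
    exact (h2 b (List.mem_of_mem_head? hb')).2 hb'
  · intro x hx had
    have hx' : x ∈ M := List.mem_of_mem_tail hx
    have h3 := (h2 x hx').1 had
    cases M with
    | nil => exact absurd hx' (List.not_mem_nil)
    | cons a l =>
      simp only [List.head?_cons, Option.some.injEq] at h3
      subst h3
      exact hM.1 a hx rfl

theorem st_RCH (h1 : ST_R0) (h2 : ST_R2) (h3 : ST_RLK) (_h4 : ST_IPX) : ST_RCH := by
  intro V G m n P R j
  induction j with
  | zero =>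
    intro hj
    have h := h1 V G (n 0)
    have e1 : {x | (∃ i, i ≤ 0 ∧ x = n i) ∨ ∃ i, i < 0 ∧ x ∈ P i} = ({n 0} : Set V) := by
      ext x
      simp only [Set.mem_setOf_eq, Set.mem_singleton_iff]
      constructor
      · rintro (⟨i, hi, rfl⟩ | ⟨i, hi, _⟩)
        · rw [Nat.le_zero.1 hi]
        · omega
      · rintro rfl
        exact Or.inl ⟨0, le_refl _, rfl⟩
    have e2 : {x | ∃ i, i ≤ 0 ∧ x = n i} = ({n 0} : Set V) := by
      ext x
      simp only [Set.mem_setOf_eq, Set.mem_singleton_iff]
      constructor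
      · rintro ⟨i, hi, rfl⟩
        rw [Nat.le_zero.1 hi]
      · rintro rfl
        exact ⟨0, le_refl _, rfl⟩
    rw [e1, e2]
    have e3 : decide (Even 0) = true := by decide
    rw [e3]
    exact h
  | succ j ih =>
    intro hj
    have hj' : j < m := by omega
    have hmod : (j + 1) % m = j + 1 := Nat.mod_eq_of_lt hj
    have ih' := ih hj'
    have hne : P j ≠ [] := by
      intro h
      have := R.len j hj'
      rw [h] at this
      simp at this
    obtain ⟨w, hw⟩ : ∃ w, (P j).getLast? = some w := by
      exact ⟨(P j).getLast hne, List.getLast?_eq_some_getLast hne⟩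
    have hwm : w ∈ P j := List.mem_of_getLast? hw
    have hlast : (n j :: P j).getLast? = some w := by
      rw [List.getLast?_cons, hw]
      rfl
    have hip : IPt G (n j :: P j) := rch_ipt (R.pth j hj') (fun x hx => R.dis j j hj' hj' x hx)
      (fun x hx => R.fst j hj' x hx)
    have hA : ∀ x ∈ P j, x ∉ {x | (∃ i, i ≤ j ∧ x = n i) ∨ ∃ i, i < j ∧ x ∈ P i} := by
      rintro x hx (⟨i, hi, rfl⟩ | ⟨i, hi, hx2⟩)
      · exact R.dis j i hj' (by omega) _ hx rfl
      · exact (R.sep j i hj' (by omega) (by omega) x hx x hx2).1 rfl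
    have hB : ∀ x ∈ P j, ∀ y ∈ {x | (∃ i, i ≤ j ∧ x = n i) ∨ ∃ i, i < j ∧ x ∈ P i}, y ≠ n j →
        ¬ G.Adj x y := by
      rintro x hx y (⟨i, hi, rfl⟩ | ⟨i, hi, hy⟩) hyn
      · have hij : i ≠ j := fun h => hyn (by rw [h])
        intro h
        exact R.cln j i hj' (by omega) hij (by rw [hmod]; omega) x hx h.symm
      · exact (R.sep j i hj' (by omega) (by omega) x hx y hy).2
    have hC := h3 V G _ _ (n 0) (n j) w _ (P j) ih' hip hA hB hlast
    have hD := h2 V G _ _ (n 0) w (n (j + 1)) _ hC ?_ ?_ ?_
    · have e1 : {x | (∃ i, i ≤ j + 1 ∧ x = n i) ∨ ∃ i, i < j + 1 ∧ x ∈ P i} =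
          insert (n (j + 1)) ({x | (∃ i, i ≤ j ∧ x = n i) ∨ ∃ i, i < j ∧ x ∈ P i} ∪ LS (P j)) := by
        ext x
        simp only [Set.mem_setOf_eq, Set.mem_insert_iff, Set.mem_union, LS]
        constructor
        · rintro (⟨i, hi, rfl⟩ | ⟨i, hi, hx⟩)
          · rcases Nat.lt_or_ge i (j + 1) with h | h
            · exact Or.inr (Or.inl (Or.inl ⟨i, by omega, rfl⟩))
            · have : i = j + 1 := by omega
              rw [this]
              exact Or.inl rfl
          · rcases Nat.lt_or_ge i j with h | h
            · exact Or.inr (Or.inl (Or.inr ⟨i, h, hx⟩))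
            · have : i = j := by omega
              rw [this] at hx
              exact Or.inr (Or.inr hx)
        · rintro (rfl | (⟨i, hi, rfl⟩ | ⟨i, hi, hx⟩) | hx)
          · exact Or.inl ⟨j + 1, le_refl _, rfl⟩
          · exact Or.inl ⟨i, by omega, rfl⟩
          · exact Or.inr ⟨i, by omega, hx⟩
          · exact Or.inr ⟨j, by omega, hx⟩
      have e2 : {x | ∃ i, i ≤ j + 1 ∧ x = n i} = insert (n (j + 1)) {x | ∃ i, i ≤ j ∧ x = n i} := by
        ext x
        simp only [Set.mem_setOf_eq, Set.mem_insert_iff]
        constructor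
        · rintro ⟨i, hi, rfl⟩
          rcases Nat.lt_or_ge i (j + 1) with h | h
          · exact Or.inr ⟨i, by omega, rfl⟩
          · have : i = j + 1 := by omega
            rw [this]
            exact Or.inl rfl
        · rintro (rfl | ⟨i, hi, rfl⟩)
          · exact ⟨j + 1, le_refl _, rfl⟩
          · exact ⟨i, by omega, rfl⟩
      have e3 : decide (Even (j + 1)) = !decide (Even j) := by
        by_cases h : Even j
        · have h' : ¬ Even (j + 1) := by
            rw [Nat.even_add_one]
            exact fun h' => h' h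
          rw [decide_eq_false h', decide_eq_true h]
          rfl
        · have h' : Even (j + 1) := by
            rw [Nat.even_add_one]
            exact h
          rw [decide_eq_true h', decide_eq_false h]
          rfl
      rw [e1, e2, e3]
      exact hD
    · rintro ⟨i, hi, hwi⟩
      exact R.dis j i hj' (by omega) w hwm hwi
    · rintro ((⟨i, hi, h⟩ | ⟨i, hi, h⟩) | h)
      · have := R.clq (j + 1) i hj (by omega) (by omega)
        rw [h] at this
        exact G.loopless.irrefl _ this
      · exact R.dis i (j + 1) (by omega) hj _ h rfl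
      · exact R.dis j (j + 1) hj' hj _ h rfl
    · rintro y ((⟨i, hi, rfl⟩ | ⟨i, hi, hy⟩) | hy)
      · exact ⟨fun _ => Or.inr ⟨i, hi, rfl⟩, fun _ => R.clq (j + 1) i hj (by omega) (by omega)⟩
      · have hmi : (i + 1) % m = i + 1 := Nat.mod_eq_of_lt (by omega)
        have hn := R.cln i (j + 1) (by omega) hj (by omega) (by rw [hmi]; omega) y hy
        refine ⟨fun h => absurd h hn, ?_⟩
        rintro (rfl | ⟨i', hi', h⟩)
        · exact absurd rfl (R.sep i j (by omega) hj' (by omega) y hy y hwm).1
        · exact absurd h (R.dis i i' (by omega) (by omega) y hy)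
      · have hy' : y ∈ P j := hy
        have hl := R.lst j hj' y hy'
        rw [hmod] at hl
        rw [hl]
        constructor
        · intro h
          rw [hw] at h
          exact Or.inl (Option.some.inj h).symm
        · rintro (rfl | ⟨i', hi', h⟩)
          · exact hw
          · exact absurd h (R.dis j i' hj' (by omega) y hy')

end Pool.Agent.Helper24.FF
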